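import Pool.Agent.N89.HL.Fin

/-!
# Random coverings of semiabelian varieties have no points over any fixed number field

`K` is a number field, `G = E_1 × ⋯ × E_r × G_m^s`, where `E_i` is an elliptic curve
`y² = x³ + a_i x` or `y² = x³ + b_i` over `K`. Let `e ≥ 3` and let

  `F_c(P; X) = ∑_(i ≤ e) (Φ_i(P) + ∑_x c_(i,x) Λ_(i,x)(P)) X^i`

be a random polynomial of degree `e` in `X`: `Φ_i` and `Λ_(i,x)` are polynomials over `𝓞 K` in
homogeneous coordinates of `P ∈ E_1 × ⋯ × E_r` and in the coordinates of the torus, all homogeneous of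
the same multidegree `d` in the coordinates of the `E_i`, and `c` is a vector of elements of `𝓞 K`. So
`Y_c : F_c(P; X) = 0` is a random covering of degree `e` of `G`. We assume that for each `i` the linear
system `(Λ_(i,x))_x` has no base points and separates any two complex points of `G`.

**Theorem.** For every finite extension `L` of `K` almost all `c` are such that for ALL the points `P` of
`G` over `L` (with `S`-units as torus coordinates; for `s = 0` all of `G(L)`) the polynomial `F_c(P; X)` has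
degree `e`, is irreducible over `L` and has a Galois group over `L` which contains the alternating group
`A_e`. So `Y_c` has no such points over `L`.

1. For every `L` and `S ≥ 1` at most `(2H+1)^(nN) exp(-c₀ log H / log log H)` of the `(2H+1)^(nN)`
   vectors `c` of size at most `H` are exceptional (`n` is the number of the coefficients, `N = [K : ℚ]`).
2. There is ONE exceptional set `𝓔` for all the fields `L ⊇ K` and all `S`, with at most
   `(2H+1)^(nN) exp(-log H / (log log H)²)` elements of size at most `H`: for all `L` and `S`, all but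
   finitely many `c ∉ 𝓔` have the property of the theorem.
3. The hypothesis holds if the `i`-th system contains all the monomials of a multidegree `d` with all
   `d_j ≥ 1`, times the monomials `u^x`, `x_0 ≤ x ≤ x_0 + 1`, of the torus.
-/

set_option autoImplicit false

namespace Pool.Agent.Results.MP_f82ddf_nt.CoveringsOverAllFields

open Polynomial NumberField

/-- polynomials with coefficients in `O` in the homogeneous coordinates `V_(i,j)`, `i < r`, `j < 3`,
of points in `r` planes and the coordinates `u_l` of a torus of dimension `s` -/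
abbrev Pol (O : Type) [CommRing O] (r s : ℕ) : Type := MvPolynomial ((Fin r × Fin 3) ⊕ Fin s) O

/-- homogeneous of degree `d i` in `V_i` -/
def Homog {O : Type} [CommRing O] {r s : ℕ} (F : Pol O r s) (d : Fin r → ℕ) : Prop :=
  ∀ μ ∈ F.support, ∀ i, ∑ j, μ (Sum.inl (i, j)) = d i

/-- the value `F(V, u)`; the coefficients are mapped by `φ` -/
noncomputable def val {O k : Type} [CommRing O] [CommRing k] (φ : O →+* k) {r s : ℕ}
    (F : Pol O r s) (V : Fin r → Fin 3 → k) (u : Fin s → k) : k :=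
  MvPolynomial.eval₂ φ (Sum.elim (fun ij => V ij.1 ij.2) u) F

/-- `(V, u)` represents a point of `E_1 × ⋯ × E_r × G_m^s`, `E_i : y² = x³ + a_i x + b_i` -/
def OnG {k : Type} [Field k] {r s : ℕ} (a b : Fin r → ℤ) (V : Fin r → Fin 3 → k) (u : Fin s → k) :
    Prop :=
  (∀ i, V i ≠ 0 ∧ V i 1 ^ 2 * V i 2 = V i 0 ^ 3 + a i * V i 0 * V i 2 ^ 2 + b i * V i 2 ^ 3) ∧
    ∀ l, u l ≠ 0

/-- `(V, u)` and `(V', u')` represent the same point -/
def Same {k : Type} [Field k] {r s : ℕ} (V : Fin r → Fin 3 → k) (u : Fin s → k)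
    (V' : Fin r → Fin 3 → k) (u' : Fin s → k) : Prop :=
  (∀ i, ∃ c : k, V i = c • V' i) ∧ u = u'

/-- the embedding of `𝓞 K` in `ℂ` -/
noncomputable def emb {K : Type} [Field K] (σ : K →+* ℂ) : 𝓞 K →+* ℂ :=
  σ.comp (algebraMap (𝓞 K) K)

/-- the linear system `Λ` has no base points on `G` and separates any two different complex points
of `G` -/
def Separates {K : Type} [Field K] (σ : K →+* ℂ) {r s : ℕ} (a b : Fin r → ℤ) {ι : Type}
    (Λ : ι → Pol (𝓞 K) r s) : Prop :=
  (∀ (V : Fin r → Fin 3 → ℂ) (u : Fin s → ℂ), OnG a b V u → ∃ x, val (emb σ) (Λ x) V u ≠ 0) ∧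
  ∀ (V V' : Fin r → Fin 3 → ℂ) (u u' : Fin s → ℂ), OnG a b V u → OnG a b V' u' →
    ¬ Same V u V' u' → LinearIndependent ℂ
      ![fun x => val (emb σ) (Λ x) V u, fun x => val (emb σ) (Λ x) V' u']

/-- the polynomial `∑_(i ≤ e) (Φ_i(V, u) + ∑_x t_(i,x) Λ_(i,x)(V, u)) X^i`; the coefficients are
mapped by `φ` -/
noncomputable def poly {O k : Type} [CommRing O] [CommRing k] (φ : O →+* k) {r s e : ℕ}
    (Φ : Fin (e + 1) → Pol O r s) {ι : Fin (e + 1) → Type} [∀ i, Fintype (ι i)]
    (Λ : (i : Fin (e + 1)) → ι i → Pol O r s) (V : Fin r → Fin 3 → k) (u : Fin s → k)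
    (t : (Σ i, ι i) → O) : k[X] :=
  ∑ i, C (val φ (Φ i) V u + ∑ x, φ (t ⟨i, x⟩) * val φ (Λ i x) V u) * X ^ (i : ℕ)

open Classical in
/-- `p` has degree `e`, is separable and its Galois group over `K` contains the alternating group:
all the even permutations of its roots come from automorphisms of the algebraic closure of `K` -/
def GalAlt {K : Type} [Field K] (e : ℕ) (p : K[X]) : Prop :=
  p.natDegree = e ∧ p.Separable ∧ ∀ π : Equiv.Perm (p.rootSet (AlgebraicClosure K)),
    Equiv.Perm.sign π = 1 → ∃ τ : AlgebraicClosure K ≃ₐ[K] AlgebraicClosure K,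
      ∀ x : p.rootSet (AlgebraicClosure K), τ (x : AlgebraicClosure K) = π x

/-- `x` is an `S`-unit (for `x ≠ 0`): `S^n x` and `S^n x⁻¹` are algebraic integers for some `n` -/
def SUnit {L : Type} [Field L] (S : ℕ) (x : L) : Prop :=
  ∃ n : ℕ, IsIntegral ℤ ((S : L) ^ n * x) ∧ IsIntegral ℤ ((S : L) ^ n * x⁻¹)

/-- the set of the `c`, representing the coefficients `c_(i,x) = ∑_j c_((i,x),j) ω_j ∈ 𝓞 K`, such that
for some point `P` of `G` over `L`, with `S`-units as torus coordinates, `F_c(P; X)` is not irreducible of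
degree `e` over `L` with a Galois group over `L` which contains `A_e` -/
def Exceptional {K : Type} [Field K] [NumberField K] (L : Type) [Field L] [Algebra K L]
    {N r s e : ℕ} (ω : Module.Basis (Fin N) ℤ (𝓞 K)) (a b : Fin r → ℤ)
    (Φ : Fin (e + 1) → Pol (𝓞 K) r s) {ι : Fin (e + 1) → Type} [∀ i, Fintype (ι i)]
    (Λ : (i : Fin (e + 1)) → ι i → Pol (𝓞 K) r s) (S : ℕ) : Set ((Σ i, ι i) × Fin N → ℤ) :=
  {c | ∃ (V : Fin r → Fin 3 → L) (u : Fin s → L), OnG a b V u ∧ (∀ l, SUnit S (u l)) ∧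
    ¬ (Irreducible (poly ((algebraMap K L).comp (algebraMap (𝓞 K) K)) Φ Λ V u
        (fun i => ∑ j, c (i, j) • ω j)) ∧
      GalAlt e (poly ((algebraMap K L).comp (algebraMap (𝓞 K) K)) Φ Λ V u
        (fun i => ∑ j, c (i, j) • ω j)))}

theorem result (K : Type) [Field K] [NumberField K] (N : ℕ) (ω : Module.Basis (Fin N) ℤ (𝓞 K))
    (r s e : ℕ) (he : 3 ≤ e) (a b : Fin r → ℤ) (hab : ∀ i, a i * b i = 0 ∧ (a i ≠ 0 ∨ b i ≠ 0))
    (Φ : Fin (e + 1) → Pol (𝓞 K) r s) (ι : Fin (e + 1) → Type) [∀ i, Fintype (ι i)]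
    (Λ : (i : Fin (e + 1)) → ι i → Pol (𝓞 K) r s) (d : Fin r → ℕ)
    (hΦ : ∀ i, Homog (Φ i) d) (hΛ : ∀ i x, Homog (Λ i x) d) (σ : K →+* ℂ) :
    ((∀ i, Separates σ a b (Λ i)) →
      -- 1. the number of the exceptional `c`
      (∀ (L : Type) [Field L] [NumberField L] [Algebra K L] (S : ℕ), 1 ≤ S →
        ∃ c₀ : ℝ, 0 < c₀ ∧ ∃ H₀ : ℕ, ∀ H : ℕ, H₀ ≤ H →
        (({c : (Σ i, ι i) × Fin N → ℤ | (∀ i, |c i| ≤ (H : ℤ)) ∧
          c ∈ Exceptional L ω a b Φ Λ S}.ncard : ℕ) : ℝ) ≤
          (2 * (H : ℝ) + 1) ^ (Fintype.card (Σ i, ι i) * N) *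
            Real.exp (-c₀ * (Real.log H / Real.log (Real.log H)))) ∧
      -- 2. one exceptional set for all `L` and all `S`
      ∃ E : Set ((Σ i, ι i) × Fin N → ℤ),
        (∃ H₀ : ℕ, ∀ H : ℕ, H₀ ≤ H → (({c : (Σ i, ι i) × Fin N → ℤ |
          (∀ i, |c i| ≤ (H : ℤ)) ∧ c ∈ E}.ncard : ℕ) : ℝ) ≤
          (2 * (H : ℝ) + 1) ^ (Fintype.card (Σ i, ι i) * N) *
            Real.exp (-(Real.log H / Real.log (Real.log H) ^ 2))) ∧
        ∀ (L : Type) [Field L] [NumberField L] [Algebra K L] (S : ℕ), 1 ≤ S →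
          (Exceptional L ω a b Φ Λ S \ E).Finite) ∧
    -- 3. the systems of all monomials
    ((∀ j, 1 ≤ d j) → ∀ (i : Fin (e + 1)) (x₀ : Fin s → ℕ),
      (∀ (μ : Fin r → Fin 3 → ℕ) (x : Fin s → ℕ), (∀ j, ∑ l, μ j l = d j) →
        (∀ l, x₀ l ≤ x l ∧ x l ≤ x₀ l + 1) → ∃ y, Λ i y =
          (∏ i, ∏ j, MvPolynomial.X (Sum.inl (i, j)) ^ μ i j) *
            ∏ l, MvPolynomial.X (Sum.inr l) ^ x l) →
      Separates σ a b (Λ i)) := by
  have hval : ∀ {k : Type} [Field k] (φ : 𝓞 K →+* k) (F : Pol (𝓞 K) r s) (V : Fin r → Fin 3 → k)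
      (u : Fin s → k), val φ F V u =
        Pool.Agent.W659.SA.vl φ (Pool.Agent.N89.HL.up F) V u Fin.elim0 := fun φ F V u =>
    (Pool.Agent.N89.HL.vl_up φ F V u Fin.elim0).symm
  have hsep : ∀ i, Separates σ a b (Λ i) ↔ Pool.Agent.N89.HL.Sep2 (Pool.Agent.W659.SA.toC σ) a b
      (fun x => Pool.Agent.N89.HL.up (Λ i x)) := by
    intro i
    unfold Separates
    simp only [hval]
    rfl
  refine ⟨fun hS => ?_, fun hd i x₀ hm => ?_⟩
  · have key : ∀ (L : Type) [Field L] [Algebra K L] (S : ℕ), Exceptional L ω a b Φ Λ S =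
        Pool.Agent.N89.HL.BadG (L := L) ω a b (fun i => Pool.Agent.N89.HL.up (Φ i))
          (fun i x => Pool.Agent.N89.HL.up (Λ i x)) (Pool.Agent.N89.BD.SUn L S) := by
      intro L _ _ S
      unfold Exceptional poly
      simp only [hval]
      ext c
      constructor
      · rintro ⟨V, u, hV, hu, hc⟩
        refine ⟨V, fun l => Units.mk0 (u l) (hV.2 l), hV.1, fun l => ?_, hc⟩
        obtain ⟨n, hn1, hn2⟩ := hu l
        exact ⟨n, hn1, by simpa using hn2⟩
      · rintro ⟨V, u, hV, hu, hc⟩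
        refine ⟨V, fun l => ((u l : Lˣ) : L), ⟨hV, fun l => (u l).ne_zero⟩, fun l => ?_, hc⟩
        obtain ⟨n, hn1, hn2⟩ := hu l
        exact ⟨n, hn1, by simpa using hn2⟩
    have h := Pool.Agent.N89.HL.finHL K N ω r s e he a b hab
      (fun i => Pool.Agent.N89.HL.up (Φ i)) ι (fun i x => Pool.Agent.N89.HL.up (Λ i x)) d
      (fun i => Pool.Agent.N89.HL.mhomog_up (hΦ i))
      (fun i x => Pool.Agent.N89.HL.mhomog_up (hΛ i x)) σ (fun i => (hsep i).1 (hS i))
    simp only [key]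
    exact h
  · rw [hsep]
    refine Pool.Agent.N89.HL.sep2_mon _ a b _ d x₀ hd ?_
    intro μ x hμ hx
    obtain ⟨y, hy⟩ := hm μ x hμ hx
    exact ⟨y, by rw [hy]; exact Pool.Agent.N89.HL.up_mon μ x⟩

end Pool.Agent.Results.MP_f82ddf_nt.CoveringsOverAllFields
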