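import Pool.Agent.N154.AR.Geo

/-!
Rational points and hyperbolicity for projective manifolds with positive 2-forms (for surfaces: with
ample canonical bundle) which are mapped to a complex torus with hyperbolic fibres.
-/

set_option autoImplicit false

open FF LinearAlgebra.Projectivization Pool.Agent.W602.GT Pool.Agent.N154.GG Pool.Agent.N154.AR

/-- Let `X = {F = 0}` be a projective variety over a number field `k`, and let `σ` be an embedding
of `k` in `ℂ` such that the complex projective variety `X_σ` is smooth of dimension `d`, with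
function field `K` and generic point `y`, its 2-forms are positive (for example, `Λ² Ω` is ample;
for surfaces: the canonical bundle is ample), and there is a holomorphic map `α : X_σ → ℂᵐ / Λ` to a
complex torus of any dimension `m`, whose fibres are Brody hyperbolic.

Then the following are equivalent: `X_σ` is Kobayashi hyperbolic (the Kobayashi pseudodistance is
bounded below by a multiple of the distance of projective space); every holomorphic map `ℂ → X_σ` is
constant; for every embedding `τ` of `k` in `ℂ`, every holomorphic map from an elliptic curve to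
`X_τ` is constant; the same for one embedding `τ`. And if `X` has only finitely many `E`-rational
points for every finite extension `E` of `k`, then these conditions hold. -/
theorem Pool.Agent.Results.MP_f82ddf_nt.FibredOverTori.result {n d m : ℕ} {ι : Type}
    {k : Type} [Field k] [NumberField k] (F : ι → MvPolynomial (Fin (n + 1)) k) (σ : k →+* ℂ)
    {K : Type} [Field K] [Algebra ℂ K] (y : Fin (n + 1) → K) (hX : SmoothVariety (emb σ F) d y)
    {κ : Type} (η : κ → (Fin (n + 1) → ℂ) → (Fin (n + 1) → ℂ) → (Fin (n + 1) → ℂ) → ℂ)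
    (hη : PositiveTwoForms (Cone (emb σ F)) d η) (Λ : Submodule ℤ (Fin m → ℂ))
    [DiscreteTopology Λ] [IsZLattice ℝ Λ] (α : (Fin (n + 1) → ℂ) → (Fin m → ℂ) ⧸ Λ)
    (hα : Pool.Agent.N154.TT.HolToTorus (Cone (emb σ F)) Λ α)
    (hfib : HyperbolicFibres (emb σ F) α) :
    List.TFAE [
      ∃ c : ℝ, 0 < c ∧ ∀ p q : ℙ ℂ (Fin (n + 1) → ℂ), p.rep ∈ Cone (emb σ F) →
        q.rep ∈ Cone (emb σ F) → ENNReal.ofReal (c * projDist p q) ≤ kobayashi (Cone (emb σ F)) p q,
      ∀ f, HolIn (emb σ F) f → ∀ z w, f z = f w,
      ∀ (τ : k →+* ℂ) (L : PeriodPair) (f : ℂ → ℙ ℂ (Fin (n + 1) → ℂ)), HolIn (emb τ F) f →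
        (∀ l ∈ L.lattice, ∀ z, f (z + l) = f z) → ∀ z w, f z = f w,
      ∃ τ : k →+* ℂ, ∀ (L : PeriodPair) (f : ℂ → ℙ ℂ (Fin (n + 1) → ℂ)), HolIn (emb τ F) f →
        (∀ l ∈ L.lattice, ∀ z, f (z + l) = f z) → ∀ z w, f z = f w] ∧
    (FinitelyManyPoints F → ∃ c : ℝ, 0 < c ∧ ∀ p q : ℙ ℂ (Fin (n + 1) → ℂ),
      p.rep ∈ Cone (emb σ F) → q.rep ∈ Cone (emb σ F) →
        ENNReal.ofReal (c * projDist p q) ≤ kobayashi (Cone (emb σ F)) p q) :=
  torus_arith F σ hX hη hα hfib
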