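import Pool.Agent.N111.KC.Smo

/-!
# Lang's question on hyperbolicity and rational points is a question on Kummer coverings of
projective spaces

MP_f82ddf_nt, Q1. Let `V` be any projective variety in `P^n`, `n ≥ 1` (any dimension, any
singularities), over a field `K` of characteristic zero, `ver : P^n → P^N` a Veronese embedding of
sufficiently large degree, and `m ≥ 4`. There are finitely many quadratic forms `T_k` over `K` and
coordinates `x_{j(k)}` of `P^N` such that the covering

`X : y_k ^ (2 m) + T_k(x) ^ m = x_{j(k)} ^ (2 m)`, `k ∈ κ`,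

of `P^N` has the following properties. `V` is embedded in `X` by `x ↦ (ver x, (ver x)_{j(k)})`. All
nonconstant entire curves in `X_σ`, for all embeddings `σ` of `K` in the complex numbers, lie in the
finitely many copies `(ver x, ζ_k (ver x)_{j(k)})`, `ζ_k ^ (2 m) = 1`, of `V_σ`. For all extensions
`L` of `K` over which the Fermat curve `u ^ m + v ^ (2 m) = 1` has only finitely many points, all but
finitely many points of `X(L)` lie in the copies of `V(L)`. So `X_σ` is hyperbolic if and only if
`V_σ` is, and `X(L)` is finite if and only if `V(L)` is.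

Consequently Q1, for all projective varieties over a number field `K` and a given `σ`, is equivalent
to Q1 for the coverings of projective spaces of this form, for each fixed `m ≥ 4`. The same holds for
the implication from hyperbolicity to the finiteness of all `X(L)` alone; by helper254's reduction to
smooth hypersurfaces (`Pool/Agent/N254/SQ`) this implication for the coverings is also equivalent to
the same implication for the smooth hypersurfaces of dimension at least two, hence for all projective
manifolds. With Faltings' theorem for the Fermat curve, the implication from the finiteness of all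
`X(L)` to hyperbolicity, for all projective varieties, is equivalent to the same for the coverings.

Proof. The image of `V` in `P^N` is defined by quadratic forms `q_i`; take all pairs `k = (i, j)`,
`T_k = q_i`. The `Q_i = q_i(x)` and the `x_j` satisfy `Q_i ^ m + (y_{ij} ^ 2) ^ m = (x_j ^ 2) ^ m`.
If some `Q_i` is not zero at a point of `X(L)` with `x_{j_0} = 1`, then `Q_i` and all `Q_i / x_j ^ 2`
belong to the finite set of coordinates of `L`-points of the Fermat curve, so there are finitely many
such points. If some `Q_i` is not identically zero on an entire curve, then `Q_i / x_j ^ 2` is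
constant for all `j` with `x_j` not identically zero, by Picard's theorem for Fermat curves (by
generalized Wronskians, `Pool/Agent/H159R3/NV`), so the curve is constant. If all `Q_i` are zero, the
curve in the Veronese variety is lifted (`Pool/Agent/N254/SQ/Lift.lean`), and `y_{ij} = ζ x_j`.
-/

set_option autoImplicit false

namespace Pool.Agent.Results.MP_f82ddf_nt.KummerCoversSuffice

open MvPolynomial
open scoped LinearAlgebra.Projectivization
open Pool.Agent.N111.KC (points Hyperbolic Lang kummer Monomials veronese fermatPts Smooth)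

section questions

variable {K : Type} [Field K] {τ ι : Type}

/-- `V(L)` is finite for all finite extensions `L` of the number field `K`. -/
def AllFinite (F : ι → MvPolynomial τ K) : Prop :=
  ∀ (L : Type) [Field L] [NumberField L] [Algebra K L], (points F L).Finite

/-- The property `P` holds for all projective varieties over `K`. -/
def ForAllVarieties (K : Type) [Field K]
    (P : ∀ {τ ι : Type}, (ι → MvPolynomial τ K) → Prop) : Prop :=
  ∀ (n : ℕ) (ι : Type) [Finite ι] (F : ι → MvPolynomial (Fin (n + 1)) K),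
    (∀ i, ∃ d, (F i).IsHomogeneous d) → P F

/-- The property `P` holds for all smooth hypersurfaces of dimension at least two over `K`. -/
def ForAllSmoothHypersurfaces (K : Type) [Field K]
    (P : ∀ {τ ι : Type}, (ι → MvPolynomial τ K) → Prop) : Prop :=
  ∀ (N : ℕ) (A : MvPolynomial (Fin (N + 1)) K), 3 ≤ N → (∃ d, A.IsHomogeneous d) → Smooth A →
    P fun _ : Unit => A

/-- The property `P` holds for all the coverings `y_k ^ (2 m) + T_k(x) ^ m = x_{j(k)} ^ (2 m)` of
projective spaces with quadratic forms `T_k` over `K`. -/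
def ForAllCoverings (K : Type) [Field K] (m : ℕ)
    (P : ∀ {τ ι : Type}, (ι → MvPolynomial τ K) → Prop) : Prop :=
  ∀ (N : ℕ) (κ : Type) [Finite κ] (T : κ → MvPolynomial (Fin (N + 1)) K) (j : κ → Fin (N + 1)),
    (∀ k, (T k).IsHomogeneous 2) → P (kummer m T j)

end questions

section proof

open Pool.Agent.N111.KC

variable {m : ℕ}

theorem main_part (hm : 4 ≤ m) (K : Type) [Field K] [CharZero K] (n : ℕ) (hn : 1 ≤ n) (ι : Type)
    [Finite ι] (F : ι → MvPolynomial (Fin (n + 1)) K) (hF : ∀ i, ∃ d, (F i).IsHomogeneous d) :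
    ∃ (N d : ℕ) (μ : Fin (N + 1) → Fin (n + 1) → ℕ) (κ : Type) (_ : Finite κ)
      (T : κ → MvPolynomial (Fin (N + 1)) K) (j : κ → Fin (N + 1)),
      Monomials n N d μ ∧ 1 ≤ d ∧ (∀ k, (T k).IsHomogeneous 2) ∧
      (∀ (L : Type) [Field L] [Algebra K L] (x : Fin (n + 1) → L) (ζ : κ → L),
        (∀ i, aeval x (F i) = 0) → (∀ k, ζ k ^ (2 * m) = 1) →
          ∀ k, aeval (Sum.elim (veronese μ x) fun k => ζ k * veronese μ x (j k))
            (kummer m T j k) = 0) ∧
      (∀ (σ : K →+* ℂ) (f : ℂ → Fin (N + 1) ⊕ κ → ℂ), (∀ j, Differentiable ℂ fun z => f z j) →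
        (∀ z, f z ≠ 0) → (∀ z k, eval₂ σ (f z) (kummer m T j k) = 0) →
          (∀ z w, ∃ c : ℂ, f z = c • f w) ∨
          ∃ (g : ℂ → Fin (n + 1) → ℂ) (ζ : κ → ℂ), (∀ j, Differentiable ℂ fun z => g z j) ∧
            (∀ z, g z ≠ 0) ∧ (∀ z i, eval₂ σ (g z) (F i) = 0) ∧ (∀ k, ζ k ^ (2 * m) = 1) ∧
            ∀ z, f z = Sum.elim (veronese μ (g z)) fun k => ζ k * veronese μ (g z) (j k)) ∧
      (∀ σ : K →+* ℂ, Hyperbolic σ (kummer m T j) ↔ Hyperbolic σ F) ∧
      ∀ (L : Type) [Field L] [Algebra K L], (fermatPts m L).Finite →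
        {P ∈ points (kummer m T j) L |
          ¬ ∃ (x : Fin (n + 1) → L) (ζ : κ → L) (c : L), (∀ i, aeval x (F i) = 0) ∧
            (∀ k, ζ k ^ (2 * m) = 1) ∧
              P.rep = c • Sum.elim (veronese μ x) fun k => ζ k * veronese μ x (j k)}.Finite ∧
        ((points (kummer m T j) L).Finite ↔ (points F L).Finite) := by
  obtain ⟨N, d, μ, ι', hι', q, D⟩ := exists_data hn F hF
  refine ⟨N, d, μ, ι' × Fin (N + 1), inferInstance, TT q, Prod.snd,
    ⟨D.mon.deg, D.mon.inj, D.mon.surj⟩, D.pos, fun k => D.hom k.1, ?_, ?_, ?_, ?_⟩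
  · intro L _ _ x ζ hx hζ k
    rw [aeval_cov]
    have h1 : (Sum.elim (veronese μ x) (fun k : ι' × Fin (N + 1) => ζ k * veronese μ x k.2) :
        Fin (N + 1) ⊕ (ι' × Fin (N + 1)) → L) ∘ Sum.inl = Pool.Agent.N254.SQ.ver μ x := rfl
    have h2 := D.zero L x hx k.1
    rw [h1, h2, zero_pow (by omega : m ≠ 0), Sum.elim_inr, Sum.elim_inl, mul_pow, hζ k]
    ring
  · intro σ f hf hf0 h
    by_cases hcon : ∀ z w, ∃ c : ℂ, f z = c • f w
    · exact Or.inl hcon
    · right
      obtain ⟨g, ζ, hg, hg0, hgF, hζ, h1, h2⟩ := curve_in hm D σ hf hf0 h hcon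
      refine ⟨g, ζ, hg, hg0, hgF, hζ, fun z => funext fun i => ?_⟩
      rcases i with i | k
      · exact h1 z i
      · exact h2 z k
  · exact fun σ => ⟨hyp_down (by omega) D σ, hyp_up hm D σ⟩
  · intro L _ _ hE
    exact ⟨fin_outside (by omega) D hE, fin_down (by omega) D, fin_up (by omega) D hE⟩

/-- an equivalence for coordinates indexed by `Fin (n + 1)` and by other types -/
theorem of_varieties {K : Type} [Field K] {P : ∀ {τ ι : Type}, (ι → MvPolynomial τ K) → Prop}
    (hP : ∀ {τ τ' ι : Type} (e : τ ≃ τ') (F : ι → MvPolynomial τ K),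
      (∀ i, ∃ d, (F i).IsHomogeneous d) → P (fun i => rename e (F i)) → P F)
    (h : ForAllVarieties K P) : ForAllCoverings K m P := by
  intro N κ _ T j hT
  obtain ⟨s, ⟨e⟩⟩ := Finite.exists_equiv_fin κ
  have e1 : Fin (N + 1) ⊕ κ ≃ Fin (N + s + 1) :=
    (Equiv.sumCongr (Equiv.refl _) e).trans (finSumFinEquiv.trans (finCongr (by omega)))
  refine hP e1 _ (fun k => ⟨2 * m, kummer_hom hT j k⟩) ?_
  exact h (N + s) κ _ fun k => ⟨2 * m, (kummer_hom hT j k).rename_isHomogeneous⟩

end proof

open Pool.Agent.N111.KC in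
theorem result (m : ℕ) (hm : 4 ≤ m) :
    -- the coverings attached to a projective variety
    (∀ (K : Type) [Field K] [CharZero K] (n : ℕ), 1 ≤ n → ∀ (ι : Type) [Finite ι]
      (F : ι → MvPolynomial (Fin (n + 1)) K), (∀ i, ∃ d, (F i).IsHomogeneous d) →
      ∃ (N d : ℕ) (μ : Fin (N + 1) → Fin (n + 1) → ℕ) (κ : Type) (_ : Finite κ)
        (T : κ → MvPolynomial (Fin (N + 1)) K) (j : κ → Fin (N + 1)),
        Monomials n N d μ ∧ 1 ≤ d ∧ (∀ k, (T k).IsHomogeneous 2) ∧
        (∀ (L : Type) [Field L] [Algebra K L] (x : Fin (n + 1) → L) (ζ : κ → L),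
          (∀ i, aeval x (F i) = 0) → (∀ k, ζ k ^ (2 * m) = 1) →
            ∀ k, aeval (Sum.elim (veronese μ x) fun k => ζ k * veronese μ x (j k))
              (kummer m T j k) = 0) ∧
        (∀ (σ : K →+* ℂ) (f : ℂ → Fin (N + 1) ⊕ κ → ℂ), (∀ j, Differentiable ℂ fun z => f z j) →
          (∀ z, f z ≠ 0) → (∀ z k, eval₂ σ (f z) (kummer m T j k) = 0) →
            (∀ z w, ∃ c : ℂ, f z = c • f w) ∨
            ∃ (g : ℂ → Fin (n + 1) → ℂ) (ζ : κ → ℂ), (∀ j, Differentiable ℂ fun z => g z j) ∧
              (∀ z, g z ≠ 0) ∧ (∀ z i, eval₂ σ (g z) (F i) = 0) ∧ (∀ k, ζ k ^ (2 * m) = 1) ∧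
              ∀ z, f z = Sum.elim (veronese μ (g z)) fun k => ζ k * veronese μ (g z) (j k)) ∧
        (∀ σ : K →+* ℂ, Hyperbolic σ (kummer m T j) ↔ Hyperbolic σ F) ∧
        ∀ (L : Type) [Field L] [Algebra K L], (fermatPts m L).Finite →
          {P ∈ points (kummer m T j) L |
            ¬ ∃ (x : Fin (n + 1) → L) (ζ : κ → L) (c : L), (∀ i, aeval x (F i) = 0) ∧
              (∀ k, ζ k ^ (2 * m) = 1) ∧
                P.rep = c • Sum.elim (veronese μ x) fun k => ζ k * veronese μ x (j k)}.Finite ∧
          ((points (kummer m T j) L).Finite ↔ (points F L).Finite)) ∧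
    -- Lang's question
    ∀ (K : Type) [Field K] [NumberField K] (σ : K →+* ℂ),
      (ForAllVarieties K (fun F => Lang σ F) ↔ ForAllCoverings K m (fun F => Lang σ F)) ∧
      [ForAllVarieties K (fun F => Hyperbolic σ F → AllFinite F),
        ForAllSmoothHypersurfaces K (fun F => Hyperbolic σ F → AllFinite F),
        ForAllCoverings K m (fun F => Hyperbolic σ F → AllFinite F)].TFAE ∧
      ((∀ (L : Type) [Field L] [NumberField L] [Algebra K L], (fermatPts m L).Finite) →
        (ForAllVarieties K (fun F => AllFinite F → Hyperbolic σ F) ↔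
          ForAllCoverings K m (fun F => AllFinite F → Hyperbolic σ F))) := by
  refine ⟨fun K _ _ n hn ι _ F hF => main_part hm K n hn ι F hF, fun K _ _ σ => ?_⟩
  have hAF : ∀ {τ τ' ι : Type} (e : τ ≃ τ') (F : ι → MvPolynomial τ K),
      (∀ i, ∃ d, (F i).IsHomogeneous d) → (AllFinite (fun i => rename e (F i)) ↔ AllFinite F) := by
    intro τ τ' ι e F hF
    refine ⟨fun h L _ _ _ => (points_rename_iff e hF).1 (h L), fun h L _ _ _ =>
      (points_rename_iff e hF).2 (h L)⟩
  -- from hyperbolic to finite
  have hA : ForAllCoverings K m (fun F => Hyperbolic σ F → AllFinite F) →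
      ForAllVarieties K (fun F => Hyperbolic σ F → AllFinite F) := by
    intro h n ι _ F hF hyp
    have hE : ∀ (L : Type) [Field L] [NumberField L] [Algebra K L], (fermatPts m L).Finite := by
      intro L _ _ _
      exact fermat_fin (h 1 Unit (FT K) (fun _ => 0) FT_hom (fermat_hyp hm σ) L)
    rcases Nat.eq_zero_or_pos n with hn | hn
    · subst hn
      exact fun L _ _ _ => points_zero F L
    · obtain ⟨N, d, μ, κ, _, T, j, -, -, hT, -, -, hh, hp⟩ := main_part hm K n hn ι F hF
      intro L _ _ _
      exact (hp L (hE L)).2.1 (h N κ T j hT ((hh σ).2 hyp) L)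
  have hB : (∀ (L : Type) [Field L] [NumberField L] [Algebra K L], (fermatPts m L).Finite) →
      ForAllCoverings K m (fun F => AllFinite F → Hyperbolic σ F) →
      ForAllVarieties K (fun F => AllFinite F → Hyperbolic σ F) := by
    intro hE h n ι _ F hF hfin
    rcases Nat.eq_zero_or_pos n with hn | hn
    · subst hn
      exact hyperbolic_zero F σ
    · obtain ⟨N, d, μ, κ, _, T, j, -, -, hT, -, -, hh, hp⟩ := main_part hm K n hn ι F hF
      exact (hh σ).1 (h N κ T j hT fun L _ _ _ => (hp L (hE L)).2.2 (hfin L))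
  have hS : ForAllSmoothHypersurfaces K (fun F => Hyperbolic σ F → AllFinite F) →
      ForAllVarieties K (fun F => Hyperbolic σ F → AllFinite F) := by
    intro h n ι _ F hF hyp
    rcases Nat.eq_zero_or_pos n with hn | hn
    · subst hn
      exact fun L _ _ _ => points_zero F L
    · obtain ⟨N, A, hN, hA, hsm, h1, h2⟩ := smooth_reduction σ hn F hF
      exact fun L _ _ _ => h2 L (h N A hN hA hsm (h1 hyp) L)
  have hV : ForAllVarieties K (fun F => Hyperbolic σ F → AllFinite F) →
      ForAllCoverings K m (fun F => Hyperbolic σ F → AllFinite F) := by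
    refine of_varieties (P := fun F => Hyperbolic σ F → AllFinite F) fun {τ τ' ι} e F hF h hy => ?_
    exact (hAF e F hF).1 (h ((hyperbolic_rename_iff (F := F) e σ).2 hy))
  refine ⟨⟨?_, ?_⟩, ?_, fun hE => ⟨?_, hB hE⟩⟩
  · refine of_varieties (P := fun F => Lang σ F) fun {τ τ' ι} e F hF h => ?_
    have h1 := hyperbolic_rename_iff (F := F) e σ
    have h2 := hAF e F hF
    exact ⟨fun hy => h2.1 (h.1 (h1.2 hy)), fun hf => h1.1 (h.2 (h2.2 hf))⟩
  · intro h
    have hcA : ForAllCoverings K m (fun F => Hyperbolic σ F → AllFinite F) :=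
      fun N κ _ T j hT hyp => (h N κ T j hT).1 hyp
    have hcB : ForAllCoverings K m (fun F => AllFinite F → Hyperbolic σ F) :=
      fun N κ _ T j hT hfin => (h N κ T j hT).2 hfin
    have hE : ∀ (L : Type) [Field L] [NumberField L] [Algebra K L], (fermatPts m L).Finite := by
      intro L _ _ _
      exact fermat_fin (hcA 1 Unit (FT K) (fun _ => 0) FT_hom (fermat_hyp hm σ) L)
    intro n ι _ F hF
    exact ⟨hA hcA n ι F hF, hB hE hcB n ι F hF⟩
  · tfae_have 1 → 2 := fun h N A _ hA _ => h N Unit (fun _ => A) fun _ => hA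
    tfae_have 2 → 1 := hS
    tfae_have 1 → 3 := hV
    tfae_have 3 → 1 := hA
    tfae_finish
  · refine of_varieties (P := fun F => AllFinite F → Hyperbolic σ F) fun {τ τ' ι} e F hF h hf => ?_
    exact (hyperbolic_rename_iff (F := F) e σ).1 (h ((hAF e F hF).2 hf))

end Pool.Agent.Results.MP_f82ddf_nt.KummerCoversSuffice
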