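import Pool.Agent.N254.SQ.BlvP

/-!
# Lang's conjecture on hyperbolicity and rational points is a question on smooth hypersurfaces

Let `X` be any projective variety in `P^n`, `n ≥ 1` (any dimension and any singularities), over a field `K`
of characteristic zero with an embedding `σ` in `ℂ`, given by forms of degree at most `d`, `d ≥ 3`, and
`v : P^n → P^N` the Veronese embedding of degree `d`. For all `D ≥ D₁(N)` there are quadratic forms `Q_t`,
`t < N (2 N + 1)`, over `K` such that the hypersurface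

`Y : ∑ t, Q_t(y) (y_0 + t y_1 + ⋯ + t^N y_N)^D = 0`

is smooth, contains `v(X)`, and all nonconstant entire curves in `Y_σ` lie in `v(X)_σ`.

Consequently, for every number field `K`, every embedding `σ` and every infinite set of exponents:

* the implication `X_σ` hyperbolic `⟹` `X(L)` finite for all finite extensions `L` of `K` holds for all
  projective varieties over `K` (in particular for all projective manifolds) if and only if it holds
  for the smooth hypersurfaces `Y` of this form;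
* the equivalence of Q1 in the form with exceptional sets (all nonconstant entire curves in `X_σ` lie in
  `Z_σ` if and only if `(X ∖ Z)(L)` is finite for all finite extensions `L` of `K`) holds for all projective
  varieties `X` over `K` and all closed subsets `Z` of `X` if and only if it holds for the smooth
  hypersurfaces `Y` of this form and all closed subsets of `Y`. (`Z = ∅` is the equivalence of Q1.)

Proof. `X` is mapped to the zeros of quadratic forms `q_i` whose Jacobian matrix has large rank at all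
points; take general combinations for the `Q_t`. See `Pool/Agent/N254/SQ`.
-/

set_option autoImplicit false

namespace Pool.Agent.Results.MP_f82ddf_nt.SmoothHypersurfacesSuffice

open MvPolynomial
open Pool.Agent.N254.SQ (ProjectiveBLV projPoints SmoothOver powerFormOver Monomials veronese)

section defs

variable {K : Type} [Field K] {ι : Type} {n : ℕ}

/-- `X_σ` is hyperbolic (in Brody's form, which is equivalent to Kobayashi's for closed subsets of
projective spaces): every holomorphic map from the complex plane to `X_σ`, given by entire functions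
without common zeros, is constant. -/
def Hyperbolic (σ : K →+* ℂ) (F : ι → MvPolynomial (Fin (n + 1)) K) : Prop :=
  ∀ f : ℂ → Fin (n + 1) → ℂ, Differentiable ℂ f → (∀ z, f z ≠ 0) →
    (∀ z i, eval₂ σ (f z) (F i) = 0) → ∀ z w, ∃ c : ℂ, f w = c • f z

/-- `X(L)` is finite for all finite extensions `L` of `K`. -/
def FinitePoints (F : ι → MvPolynomial (Fin (n + 1)) K) : Prop :=
  ∀ (L : Type) [Field L] [NumberField L] [Algebra K L], (projPoints F L).Finite

end defs

section proof

open Pool.Agent.N254.SQ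

theorem one_dir {D₁ : ℕ → ℕ} (hGeo : GeoAll D₁) {K : Type} [Field K] [NumberField K]
    (σ : K →+* ℂ) (E : Set ℕ) (hE : E.Infinite)
    (H : ∀ (N D : ℕ) (Q : Fin (N * (2 * N + 1)) → MvPolynomial (Fin (N + 1)) K), D ∈ E →
      D₁ N ≤ D → (∀ t, (Q t).IsHomogeneous 2) → SmoothOver (powerFormOver D Q) →
      Hyperbolic σ (fun _ : Unit => powerFormOver D Q) →
        FinitePoints (fun _ : Unit => powerFormOver D Q))
    (n : ℕ) (ι : Type) [Finite ι] (F : ι → MvPolynomial (Fin (n + 1)) K)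
    (hF : ∀ i, ∃ e, (F i).IsHomogeneous e) (hyp : Hyperbolic σ F) : FinitePoints F := by
  classical
  rcases Nat.eq_zero_or_pos n with rfl | hn
  · intro L _ _ _
    have h1 := (blvp_point σ F (fun _ : Unit => (1 : MvPolynomial (Fin (0 + 1)) K))).1 (by
      rintro f hf hf0 hfF ⟨z, w, h⟩
      obtain ⟨c, hc⟩ := hyp f hf hf0 hfF z w
      exact absurd hc (h c)) L
    refine h1.subset fun P hP => ⟨hP, fun h2 => ?_⟩
    have h3 : aeval P.rep (1 : MvPolynomial (Fin (0 + 1)) K) = (0 : L) := h2 ()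
    rw [map_one] at h3
    exact one_ne_zero h3
  obtain ⟨d, hd3, hdF⟩ : ∃ d, 3 ≤ d ∧ (∀ i, ∃ e ≤ d, (F i).IsHomogeneous e) := by
    have := Fintype.ofFinite ι
    choose eF heF using hF
    exact ⟨max 3 (Finset.univ.sup eF), le_max_left _ _, fun i => ⟨eF i,
      (Finset.le_sup (f := eF) (Finset.mem_univ i)).trans (le_max_right _ _), heF i⟩⟩
  obtain ⟨N, m, hm, hN⟩ := t_num n d hn hd3
  have hd1 : 1 ≤ d := by omega
  obtain ⟨D, hDE, hD⟩ := hE.exists_gt (D₁ N)
  obtain ⟨Q, hQ, hsm, hv, hg⟩ := hGeo n d hn hd3 N m hm hN D hD.le K σ (Set.range F) (by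
    rintro _ ⟨i, rfl⟩
    exact hdF i)
  have hyp2 : Hyperbolic σ (fun _ : Unit => powerFormOver D Q) := by
    intro f hf hf0 hfA
    by_contra hcon
    obtain ⟨F₁, hF₁, hF0, hFS, hfF⟩ := blvp_lift hg f hf hf0 (fun z => by
      rw [eval_map]
      exact hfA z ()) hcon
    apply hcon
    intro z w
    obtain ⟨c, hc⟩ := hyp F₁ hF₁ hF0 (fun z k => by
      have h3 := hFS z _ ⟨F k, ⟨k, rfl⟩, rfl⟩
      rw [eval_map] at h3
      exact h3) z w
    exact ⟨c ^ d, by rw [hfF, hfF, hc, ver_smul hm]⟩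
  have hfin := H N D Q hDE hD.le hQ (blvp_smooth hsm) hyp2
  intro L _ _ _
  refine Set.Finite.of_finite_image ((hfin L).subset ?_) ((blvp_inj hm hd1).injOn)
  rintro _ ⟨P, hP, rfl⟩
  intro _
  unfold blvp_phi
  change aeval _ (powerSum D Q) = 0
  rw [blvp_rep ⟨_, power_form hQ⟩]
  have h3 := hv L (algebraMap K L) P.rep (by
    rintro _ ⟨i, rfl⟩
    rw [eval_map]
    exact hP i)
  rw [eval_map] at h3
  exact h3

end proof

theorem result : ∃ D₁ : ℕ → ℕ,
    (∀ n d : ℕ, 1 ≤ n → 3 ≤ d → ∃ (N : ℕ) (m : Fin (N + 1) → Fin (n + 1) → ℕ),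
      Monomials n N d m ∧ ∀ D, D₁ N ≤ D → ∀ (K : Type) [Field K] [CharZero K] (σ : K →+* ℂ)
        (S : Set (MvPolynomial (Fin (n + 1)) K)), (∀ p ∈ S, ∃ e ≤ d, p.IsHomogeneous e) →
        ∃ Q : Fin (N * (2 * N + 1)) → MvPolynomial (Fin (N + 1)) K,
          (∀ t, (Q t).IsHomogeneous 2) ∧ SmoothOver (powerFormOver D Q) ∧
          (∀ (Ω : Type) [Field Ω] (τ : K →+* Ω) (x : Fin (n + 1) → Ω),
            (∀ p ∈ S, eval₂ τ x p = 0) → eval₂ τ (veronese m x) (powerFormOver D Q) = 0) ∧
          ∀ f : ℂ → Fin (N + 1) → ℂ, Differentiable ℂ f → (∀ z, f z ≠ 0) →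
            (∀ z, eval₂ σ (f z) (powerFormOver D Q) = 0) →
            (∀ z w, ∃ c : ℂ, f w = c • f z) ∨
              ∀ z, ∃ x : Fin (n + 1) → ℂ, (∀ p ∈ S, eval₂ σ x p = 0) ∧ f z = veronese m x) ∧
    ∀ (K : Type) [Field K] [NumberField K] (σ : K →+* ℂ) (E : Set ℕ), E.Infinite →
      ((∀ (n : ℕ) (ι : Type) [Finite ι] (F : ι → MvPolynomial (Fin (n + 1)) K),
          (∀ i, ∃ e, (F i).IsHomogeneous e) → Hyperbolic σ F → FinitePoints F) ↔
        ∀ (N D : ℕ) (Q : Fin (N * (2 * N + 1)) → MvPolynomial (Fin (N + 1)) K), D ∈ E →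
          D₁ N ≤ D → (∀ t, (Q t).IsHomogeneous 2) → SmoothOver (powerFormOver D Q) →
          Hyperbolic σ (fun _ : Unit => powerFormOver D Q) →
            FinitePoints (fun _ : Unit => powerFormOver D Q)) ∧
      ((∀ (n : ℕ) (ι κ : Type) [Finite ι] (F : ι → MvPolynomial (Fin (n + 1)) K)
          (G : κ → MvPolynomial (Fin (n + 1)) K), (∀ i, ∃ e, (F i).IsHomogeneous e) →
          (∀ k, ∃ e, (G k).IsHomogeneous e) → ProjectiveBLV σ F G) ↔
        ∀ (N D : ℕ) (Q : Fin (N * (2 * N + 1)) → MvPolynomial (Fin (N + 1)) K), D ∈ E →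
          D₁ N ≤ D → (∀ t, (Q t).IsHomogeneous 2) → SmoothOver (powerFormOver D Q) →
          ∀ (κ : Type) (G : κ → MvPolynomial (Fin (N + 1)) K), (∀ k, ∃ e, (G k).IsHomogeneous e) →
            ProjectiveBLV σ (fun _ : Unit => powerFormOver D Q) G) := by
  obtain ⟨D₁, hG⟩ := Pool.Agent.N254.SQ.main6 Pool.Agent.N254.SQ.leaves4 Pool.Agent.N254.SQ.t_ext
  refine ⟨D₁, ?_, fun K _ _ σ E hE => ⟨⟨?_, fun H n ι _ F hF hyp =>
    one_dir hG σ E hE H n ι F hF hyp⟩, ⟨?_, Pool.Agent.N254.SQ.t_blvp D₁ hG K σ E hE⟩⟩⟩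
  · intro n d hn hd
    obtain ⟨N, m, hm, hN⟩ := Pool.Agent.N254.SQ.t_num n d hn hd
    refine ⟨N, m, ⟨hm.deg, hm.inj, hm.surj⟩, fun D hD K _ _ σ S hS => ?_⟩
    obtain ⟨Q, hQ, hsm, hv, hg⟩ := hG n d hn hd N m hm hN D hD K σ S hS
    refine ⟨Q, hQ, Pool.Agent.N254.SQ.blvp_smooth hsm, ?_, ?_⟩
    · intro Ω _ τ x hx
      have h1 := hv Ω τ x (fun p hp => by
        rw [eval_map]
        exact hx p hp)
      rw [eval_map] at h1
      exact h1
    · intro f hf hf0 hfA
      rcases hg.curves f hf hf0 (fun z => by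
        rw [eval_map]
        exact hfA z) with h | h
      · exact Or.inl h
      · right
        intro z
        obtain ⟨x, -, hxS, hfx⟩ := h z
        refine ⟨x, fun p hp => ?_, hfx⟩
        have h2 := hxS _ ⟨p, hp, rfl⟩
        rwa [eval_map] at h2
  · intro h N D Q _ _ hQ _ hyp
    exact h N Unit _ (fun _ => ⟨2 + D, Pool.Agent.N254.SQ.power_form hQ⟩) hyp
  · intro h N D Q _ _ hQ _ κ G hG2
    exact h N Unit κ _ G (fun _ => ⟨2 + D, Pool.Agent.N254.SQ.power_form hQ⟩) hG2

end Pool.Agent.Results.MP_f82ddf_nt.SmoothHypersurfacesSuffice
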